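import Mathlib

/-!
# Maximal irredundant sets in the three-dimensional rooks graph: counting
-/

set_option autoImplicit false

open Finset

namespace Pool.Agent.V5helper7.RK

variable {m : ℕ}

/-- closed neighbourhood -/
def N (v : Fin 3 → Fin (m + 1)) : Finset (Fin 3 → Fin (m + 1)) := univ.filter fun w => hammingDist v w ≤ 1

lemma mem_N (v w : Fin 3 → Fin (m + 1)) : w ∈ N v ↔ hammingDist v w ≤ 1 := by simp [N]

lemma mem_N_comm (v w : Fin 3 → Fin (m + 1)) : w ∈ N v ↔ v ∈ N w := by
  rw [mem_N, mem_N, hammingDist_comm]

lemma self_mem (v : Fin 3 → Fin (m + 1)) : v ∈ N v := by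
  rw [mem_N, hammingDist_self]; exact Nat.zero_le _

lemma upd_mem (v : Fin 3 → Fin (m + 1)) (i : Fin 3) (t : Fin (m + 1)) : Function.update v i t ∈ N v := by
  rw [mem_N]
  unfold hammingDist
  have : (univ.filter fun j => v j ≠ Function.update v i t j) ⊆ {i} := by
    intro j hj
    rw [mem_filter] at hj
    rw [mem_singleton]
    by_contra h
    exact hj.2 (by rw [Function.update_of_ne h])
  exact (card_le_card this).trans (by simp)

lemma mem_N_iff (v w : Fin 3 → Fin (m + 1)) (h : w ∈ N v) :
    w = v ∨ ∃ i t, t ≠ v i ∧ w = Function.update v i t := by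
  rw [mem_N] at h
  unfold hammingDist at h
  by_cases hw : w = v
  · exact Or.inl hw
  · right
    obtain ⟨i, hi⟩ := Function.ne_iff.1 hw
    refine ⟨i, w i, hi, ?_⟩
    funext j
    by_cases hj : j = i
    · rw [hj, Function.update_self]
    · rw [Function.update_of_ne hj]
      by_contra h2
      have h3 : ({i, j} : Finset (Fin 3)) ⊆ univ.filter fun j => v j ≠ w j := by
        intro l hl
        rw [mem_insert, mem_singleton] at hl
        rw [mem_filter]
        refine ⟨mem_univ _, ?_⟩
        rcases hl with rfl | rfl
        · exact fun h => hi h.symm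
        · exact fun h => h2 h.symm
      have h4 := card_le_card h3
      rw [card_pair (fun h => hj h.symm)] at h4
      omega

lemma card_upd (v : Fin 3 → Fin (m + 1)) (s : Finset (Fin 3)) :
    (s.biUnion fun i => (univ.erase (v i)).image fun t => Function.update v i t).card ≤ s.card * m := by
  refine card_biUnion_le_card_mul _ _ _ fun i _ => card_image_le.trans ?_
  rw [card_erase_of_mem (mem_univ _), card_univ, Fintype.card_fin]
  simp

lemma card_N (v : Fin 3 → Fin (m + 1)) : (N v).card ≤ 3 * m + 1 := by
  have h : N v ⊆ insert v ((univ : Finset (Fin 3)).biUnion fun i =>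
      (univ.erase (v i)).image fun t => Function.update v i t) := by
    intro w hw
    rcases mem_N_iff v w hw with h | ⟨i, t, ht, h⟩
    · rw [h]; exact mem_insert_self _ _
    · refine mem_insert_of_mem (mem_biUnion.2 ⟨i, mem_univ _, mem_image.2 ⟨t, ?_, h.symm⟩⟩)
      exact mem_erase.2 ⟨ht, mem_univ _⟩
  have h1 := card_upd v univ
  have h2 := (card_le_card h).trans (card_insert_le _ _)
  simp only [card_univ, Fintype.card_fin] at h1
  omega

lemma card_sdiff_N (v w : Fin 3 → Fin (m + 1)) (hw : w ∈ N v) (hwv : w ≠ v) :
    (N w \ N v).card ≤ 2 * m := by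
  rcases mem_N_iff v w hw with h | ⟨i, t, ht, h⟩
  · exact absurd h hwv
  · have h1 : N w \ N v ⊆ ((univ : Finset (Fin 3)).erase i).biUnion fun j =>
        (univ.erase (w j)).image fun s => Function.update w j s := by
      intro x hx
      rw [mem_sdiff] at hx
      rcases mem_N_iff w x hx.1 with h2 | ⟨j, s, hs, h2⟩
      · exact absurd (h2 ▸ hw) hx.2
      · have hji : j ≠ i := by
          rintro rfl
          apply hx.2
          rw [h2, h, Function.update_idem]
          exact upd_mem v j s
        refine mem_biUnion.2 ⟨j, mem_erase.2 ⟨hji, mem_univ _⟩, mem_image.2 ⟨s, ?_, h2.symm⟩⟩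
        exact mem_erase.2 ⟨hs, mem_univ _⟩
    have h2 := (card_le_card h1).trans (card_upd w (univ.erase i))
    rw [card_erase_of_mem (mem_univ _), card_univ, Fintype.card_fin] at h2
    exact h2

lemma card_inter_N (u v : Fin 3 → Fin (m + 1)) (huv : u ∉ N v) : (N u ∩ N v).card ≤ 2 := by
  rcases (N u ∩ N v).eq_empty_or_nonempty with h | ⟨w0, hw0⟩
  · rw [h]; simp
  · have hD : (univ.filter fun i => u i ≠ v i).card ≤ 2 := by
      rw [mem_inter, mem_N, mem_N] at hw0
      have h1 := hammingDist_triangle u w0 v
      rw [hammingDist_comm w0 v] at h1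
      have h2 : hammingDist u v = (univ.filter fun i => u i ≠ v i).card := rfl
      omega
    have hsub : N u ∩ N v ⊆ (univ.filter fun i => u i ≠ v i).image fun i => Function.update v i (u i) := by
      intro w hw
      rw [mem_inter] at hw
      rcases mem_N_iff v w hw.2 with h | ⟨i, t, ht, h⟩
      · exact absurd ((mem_N_comm u v).1 (h ▸ hw.1)) huv
      · have hti : t = u i := by
          by_contra hti
          -- `w` and `u` agree outside `i`
          rcases mem_N_iff u w hw.1 with h2 | ⟨j, s, hs, h2⟩
          · apply hti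
            rw [← h2, h, Function.update_self]
          · have hij : i = j := by
              by_contra hij
              apply hti
              have h3 := congrFun (h.symm.trans h2) i
              rw [Function.update_self, Function.update_of_ne hij] at h3
              exact h3
            subst hij
            apply huv
            have h3 : u = Function.update v i (u i) := by
              funext l
              by_cases hl : l = i
              · rw [hl, Function.update_self]
              · rw [Function.update_of_ne hl]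
                have h4 := congrFun (h.symm.trans h2) l
                rw [Function.update_of_ne hl, Function.update_of_ne hl] at h4
                exact h4.symm
            rw [h3]
            exact upd_mem v i _
        refine mem_image.2 ⟨i, mem_filter.2 ⟨mem_univ _, ?_⟩, ?_⟩
        · rw [← hti]; exact ht
        · rw [← hti]; exact h.symm
    exact ((card_le_card hsub).trans card_image_le).trans hD

lemma dcount (S : Finset (Fin 3 → Fin (m + 1))) (F : (Fin 3 → Fin (m + 1)) → Finset (Fin 3 → Fin (m + 1))) :
    ∑ v ∈ S, (F v).card = ∑ p : Fin 3 → Fin (m + 1), (S.filter fun v => p ∈ F v).card := by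
  have h : ∀ v, (F v).card = ∑ p : Fin 3 → Fin (m + 1), if p ∈ F v then 1 else 0 := by
    intro v
    simp
  simp only [h, card_filter]
  rw [sum_comm]

/-- irredundance in terms of `N` -/
def Irr (S : Finset (Fin 3 → Fin (m + 1))) : Prop := ∀ v ∈ S, ∃ w ∈ N v, ∀ u ∈ S, u ≠ v → w ∉ N u

theorem count (S : Finset (Fin 3 → Fin (m + 1))) (hI : Irr S) (hM : ∀ T, S ⊆ T → Irr T → T = S) :
    2 * (m + 1) ^ 3 ≤ (7 * m + 3) * S.card := by
  classical
  set PN : (Fin 3 → Fin (m + 1)) → Finset (Fin 3 → Fin (m + 1)) :=
    fun v => (N v).filter fun w => ∀ u ∈ S, u ≠ v → w ∉ N u with hPN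
  set U : Finset (Fin 3 → Fin (m + 1)) := univ.filter fun p => ∀ v ∈ S, p ∉ N v with hU
  set Dm : Finset (Fin 3 → Fin (m + 1)) := univ.filter fun p => ¬ ∀ v ∈ S, p ∉ N v with hDm
  set A : (Fin 3 → Fin (m + 1)) → Finset (Fin 3 → Fin (m + 1)) :=
    fun v => U.filter fun u => PN v ⊆ N u with hA
  -- every undominated vertex annihilates an element of `S`
  have hUA : U ⊆ S.biUnion A := by
    intro u hu
    have hu2 := (mem_filter.1 hu).2
    have huS : u ∉ S := fun h => hu2 u h (self_mem u)
    have h1 : ¬ Irr (insert u S) := by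
      intro h
      have := hM _ (subset_insert u S) h
      exact huS (this ▸ mem_insert_self u S)
    unfold Irr at h1
    push_neg at h1
    obtain ⟨v, hv, hv2⟩ := h1
    have hvu : v ≠ u := by
      rintro rfl
      obtain ⟨x, hx1, hx2, hx3⟩ := hv2 v (self_mem v)
      rcases mem_insert.1 hx1 with h | h
      · exact hx2 h
      · exact hu2 x h hx3
    have hvS : v ∈ S := (mem_insert.1 hv).resolve_left hvu
    refine mem_biUnion.2 ⟨v, hvS, mem_filter.2 ⟨hu, ?_⟩⟩
    intro w hw
    obtain ⟨hw1, hw2⟩ := mem_filter.1 hw
    obtain ⟨x, hx1, hx2, hx3⟩ := hv2 w hw1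
    rcases mem_insert.1 hx1 with h | h
    · rw [← h]; exact hx3
    · exact absurd hx3 (hw2 x h hx2)
  -- the bound for each element
  have hloc : ∀ v ∈ S, (N v).card + (PN v).card + 2 * (A v).card ≤ 7 * m + 3 := by
    intro v hv
    have hN := card_N v
    rcases (A v).eq_empty_or_nonempty with h | ⟨u, hu⟩
    · have h1 : (PN v).card ≤ (N v).card := card_le_card (filter_subset _ _)
      rw [h, card_empty]
      omega
    · obtain ⟨huU, hsub⟩ := mem_filter.1 hu
      have huv : u ∉ N v := (mem_filter.1 huU).2 v hv
      have h1 : (PN v).card ≤ 2 := by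
        refine (card_le_card ?_).trans (card_inter_N u v huv)
        intro w hw
        exact mem_inter.2 ⟨hsub hw, (mem_filter.1 hw).1⟩
      obtain ⟨w, hwN, hwp⟩ := hI v hv
      have hw : w ∈ PN v := mem_filter.2 ⟨hwN, hwp⟩
      have hwv : w ≠ v := by
        rintro rfl
        exact huv ((mem_N_comm u w).1 (hsub hw))
      have h2 : (A v).card ≤ 2 * m := by
        refine (card_le_card ?_).trans (card_sdiff_N v w hwN hwv)
        intro u' hu'
        obtain ⟨hu'U, hsub'⟩ := mem_filter.1 hu'
        exact mem_sdiff.2 ⟨(mem_N_comm u' w).1 (hsub' hw), (mem_filter.1 hu'U).2 v hv⟩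
      omega
  -- double counting of the dominated vertices
  have hDc : 2 * Dm.card ≤ ∑ v ∈ S, ((N v).card + (PN v).card) := by
    have e1 := dcount S N
    have e2 := dcount S PN
    rw [sum_add_distrib, e1, e2, ← sum_add_distrib]
    calc 2 * Dm.card = ∑ p ∈ Dm, 2 := by rw [sum_const, smul_eq_mul, Nat.mul_comm]
      _ ≤ ∑ p ∈ Dm, ((S.filter fun v => p ∈ N v).card + (S.filter fun v => p ∈ PN v).card) := by
          refine sum_le_sum fun p hp => ?_
          have hp2 := (mem_filter.1 hp).2
          push_neg at hp2
          obtain ⟨v, hv, hpv⟩ := hp2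
          by_cases hex : ∃ u ∈ S, u ≠ v ∧ p ∈ N u
          · obtain ⟨u, hu, huv, hpu⟩ := hex
            have : ({v, u} : Finset (Fin 3 → Fin (m + 1))) ⊆ S.filter fun v => p ∈ N v := by
              intro x hx
              rw [mem_insert, mem_singleton] at hx
              rcases hx with rfl | rfl
              · exact mem_filter.2 ⟨hv, hpv⟩
              · exact mem_filter.2 ⟨hu, hpu⟩
            have h3 := card_le_card this
            rw [card_pair huv.symm] at h3
            omega
          · push_neg at hex
            have h3 : 0 < (S.filter fun v => p ∈ N v).card := card_pos.2 ⟨v, mem_filter.2 ⟨hv, hpv⟩⟩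
            have h4 : 0 < (S.filter fun v => p ∈ PN v).card :=
              card_pos.2 ⟨v, mem_filter.2 ⟨hv, mem_filter.2 ⟨hpv, hex⟩⟩⟩
            omega
      _ ≤ ∑ p : Fin 3 → Fin (m + 1), ((S.filter fun v => p ∈ N v).card + (S.filter fun v => p ∈ PN v).card) :=
          sum_le_sum_of_subset (subset_univ _)
  have hUc : U.card ≤ ∑ v ∈ S, (A v).card := (card_le_card hUA).trans card_biUnion_le
  have htot : U.card + Dm.card = (m + 1) ^ 3 := by
    rw [hU, hDm, card_filter_add_card_filter_not, card_univ, Fintype.card_fun, Fintype.card_fin, Fintype.card_fin]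
  have hsum : ∑ v ∈ S, ((N v).card + (PN v).card + 2 * (A v).card) ≤ ∑ v ∈ S, (7 * m + 3) :=
    sum_le_sum hloc
  rw [sum_const, smul_eq_mul, sum_add_distrib, ← mul_sum] at hsum
  calc 2 * (m + 1) ^ 3 = 2 * Dm.card + 2 * U.card := by rw [← htot]; ring
    _ ≤ S.card * (7 * m + 3) := by omega
    _ = (7 * m + 3) * S.card := Nat.mul_comm _ _

end Pool.Agent.V5helper7.RK
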