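import Pool.Agent.V5helper7.RK.Main

/-!
# Maximal irredundant sets in the three-dimensional rooks graph: the constant 3/10
-/

set_option autoImplicit false

open Finset

namespace Pool.Agent.V5helper7.RK

variable {m : ℕ}

lemma pairs (X : Finset (Fin 3 → Fin (m + 1))) (k : Fin 3) :
    X.card ^ 2 ≤ (m + 1) * ∑ v ∈ X, (X.filter fun x => x k = v k).card := by
  classical
  have h1 : X.card = ∑ z : Fin (m + 1), (X.filter fun v => v k = z).card :=
    card_eq_sum_card_fiberwise (f := fun v : Fin 3 → Fin (m + 1) => v k) (t := univ) (fun v _ => by simp)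
  have h2 : ∑ v ∈ X, (X.filter fun x => x k = v k).card =
      ∑ z : Fin (m + 1), (X.filter fun v => v k = z).card ^ 2 := by
    rw [← sum_fiberwise' X (fun v : Fin 3 → Fin (m + 1) => v k)
      (fun z => (X.filter fun x => x k = z).card)]
    refine sum_congr rfl fun z _ => ?_
    rw [sum_const, smul_eq_mul, sq]
  rw [h2]
  calc X.card ^ 2 = (∑ z : Fin (m + 1), (X.filter fun v => v k = z).card) ^ 2 := by rw [← h1]
    _ ≤ (univ : Finset (Fin (m + 1))).card * ∑ z : Fin (m + 1), (X.filter fun v => v k = z).card ^ 2 :=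
        sq_sum_le_card_mul_sum_sq
    _ = _ := by rw [card_univ, Fintype.card_fin]

/-- the undominated vertices near a vertex `w` -/
lemma card_A (S X A : Finset (Fin 3 → Fin (m + 1))) (i : Fin 3) (v w : Fin 3 → Fin (m + 1)) (t : Fin (m + 1))
    (hw : w = Function.update v i t)
    (hX : ∀ x ∈ X, x ∈ S) (hvX : v ∈ X)
    (hline : ∀ x ∈ X, ∀ y ∈ X, (∀ l, l ≠ i → x l = y l) → x = y)
    (hA : ∀ u ∈ A, u ∈ N w ∧ ∀ x ∈ S, u ∉ N x) :
    A.card + ∑ j ∈ univ.erase i, (X.filter fun x => ∀ l, l ≠ i → l ≠ j → x l = v l).card ≤ 2 * (m + 1) := by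
  classical
  set B : Fin 3 → Finset (Fin (m + 1)) := fun j =>
    (X.filter fun x => ∀ l, l ≠ i → l ≠ j → x l = v l).image fun x => x j with hB
  have hBc : ∀ j ∈ (univ : Finset (Fin 3)).erase i,
      (B j).card = (X.filter fun x => ∀ l, l ≠ i → l ≠ j → x l = v l).card := by
    intro j hj
    apply card_image_of_injOn
    intro x hx y hy hxy
    obtain ⟨hx1, hx2⟩ := mem_filter.1 (mem_coe.1 hx)
    obtain ⟨hy1, hy2⟩ := mem_filter.1 (mem_coe.1 hy)
    refine hline x hx1 y hy1 fun l hl => ?_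
    by_cases hlj : l = j
    · rw [hlj]; exact hxy
    · rw [hx2 l hl hlj, hy2 l hl hlj]
  have hsub : A ⊆ ((univ : Finset (Fin 3)).erase i).biUnion fun j =>
      (univ \ B j).image fun s => Function.update w j s := by
    intro u hu
    obtain ⟨h1, h2⟩ := hA u hu
    have hne : ∀ x ∈ X, ¬ (∀ l, l ≠ i → u l = x l) := by
      intro x hx h
      apply h2 x (hX x hx)
      have : u = Function.update x i (u i) := by
        funext l
        by_cases hl : l = i
        · rw [hl, Function.update_self]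
        · rw [Function.update_of_ne hl]; exact h l hl
      rw [this]
      exact upd_mem x i _
    rcases mem_N_iff w u h1 with h3 | ⟨j, s, hs, h3⟩
    · exfalso
      apply hne v hvX
      intro l hl
      rw [h3, hw, Function.update_of_ne hl]
    · have hji : j ≠ i := by
        rintro rfl
        apply hne v hvX
        intro l hl
        rw [h3, Function.update_of_ne hl, hw, Function.update_of_ne hl]
      refine mem_biUnion.2 ⟨j, mem_erase.2 ⟨hji, mem_univ _⟩, mem_image.2 ⟨s, ?_, h3.symm⟩⟩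
      rw [mem_sdiff]
      refine ⟨mem_univ _, fun hsB => ?_⟩
      obtain ⟨x, hx, hxs⟩ := mem_image.1 hsB
      obtain ⟨hx1, hx2⟩ := mem_filter.1 hx
      apply hne x hx1
      intro l hl
      by_cases hlj : l = j
      · rw [hlj, h3, Function.update_self]; exact hxs.symm
      · rw [h3, Function.update_of_ne hlj, hw, Function.update_of_ne hl]
        exact (hx2 l hl hlj).symm
  have h4 : A.card ≤ ∑ j ∈ (univ : Finset (Fin 3)).erase i, (univ \ B j).card :=
    (card_le_card hsub).trans (card_biUnion_le.trans (sum_le_sum fun j _ => card_image_le))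
  have h5 : ∀ j, (univ \ B j).card + (B j).card = m + 1 := by
    intro j
    rw [card_sdiff_add_card_eq_card (subset_univ _), card_univ, Fintype.card_fin]
  have h6 : ∑ j ∈ (univ : Finset (Fin 3)).erase i, ((univ \ B j).card + (B j).card) = 2 * (m + 1) := by
    rw [sum_congr rfl fun j _ => h5 j, sum_const, card_erase_of_mem (mem_univ _), card_univ, Fintype.card_fin]
    simp
  rw [sum_add_distrib] at h6
  rw [← sum_congr rfl hBc]
  omega

lemma third (i j : Fin 3) (h : j ≠ i) : ∃ k : Fin 3, ∀ l, (l ≠ i ∧ l ≠ j) ↔ l = k := by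
  revert i j; decide

/-- the sum over one direction -/
lemma sum_dir (S X : Finset (Fin 3 → Fin (m + 1))) (A : (Fin 3 → Fin (m + 1)) → Finset (Fin 3 → Fin (m + 1)))
    (i : Fin 3) (hX : ∀ x ∈ X, x ∈ S)
    (hline : ∀ x ∈ X, ∀ y ∈ X, (∀ l, l ≠ i → x l = y l) → x = y)
    (hA : ∀ v ∈ X, ∃ t, ∀ u ∈ A v, u ∈ N (Function.update v i t) ∧ ∀ x ∈ S, u ∉ N x) :
    (m + 1) * ∑ v ∈ X, (A v).card + 2 * X.card ^ 2 ≤ 2 * (m + 1) ^ 2 * X.card := by
  classical
  have h1 : ∑ v ∈ X, ((A v).card + ∑ j ∈ univ.erase i, (X.filter fun x => ∀ l, l ≠ i → l ≠ j → x l = v l).card) ≤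
      ∑ v ∈ X, 2 * (m + 1) := by
    refine sum_le_sum fun v hv => ?_
    obtain ⟨t, ht⟩ := hA v hv
    exact card_A S X (A v) i v _ t rfl hX hv hline ht
  rw [sum_add_distrib, sum_const, smul_eq_mul, sum_comm] at h1
  have h2 : ∀ j ∈ (univ : Finset (Fin 3)).erase i,
      X.card ^ 2 ≤ (m + 1) * ∑ v ∈ X, (X.filter fun x => ∀ l, l ≠ i → l ≠ j → x l = v l).card := by
    intro j hj
    obtain ⟨k, hk⟩ := third i j (mem_erase.1 hj).1
    have h3 : ∀ v : Fin 3 → Fin (m + 1), (X.filter fun x => ∀ l, l ≠ i → l ≠ j → x l = v l) = X.filter fun x => x k = v k := by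
      intro v
      apply filter_congr
      intro x _
      constructor
      · intro h
        have := (hk k).2 rfl
        exact h k this.1 this.2
      · intro h l hl1 hl2
        have := (hk l).1 ⟨hl1, hl2⟩
        rw [this]; exact h
    simp only [h3]
    exact pairs X k
  have h4 := sum_le_sum h2
  rw [sum_const, card_erase_of_mem (mem_univ _), card_univ, Fintype.card_fin, ← mul_sum, smul_eq_mul] at h4
  have h5 := Nat.mul_le_mul_left (m + 1) h1
  rw [mul_add] at h5
  have h6 : (m + 1) * (X.card * (2 * (m + 1))) = 2 * (m + 1) ^ 2 * X.card := by ring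
  rw [h6] at h5
  have h7 : (3 - 1) * X.card ^ 2 = 2 * X.card ^ 2 := by norm_num
  omega

theorem count_sum (S : Finset (Fin 3 → Fin (m + 1))) (hI : Irr S) (hM : ∀ T, S ⊆ T → Irr T → T = S) :
    2 * (m + 1) ^ 3 ≤ ∑ v ∈ S, ((N v).card + ((N v).filter fun w => ∀ u ∈ S, u ≠ v → w ∉ N u).card +
      2 * ((univ.filter fun p => ∀ v ∈ S, p ∉ N v).filter fun u =>
        ((N v).filter fun w => ∀ u ∈ S, u ≠ v → w ∉ N u) ⊆ N u).card) := by
  classical
  set PN : (Fin 3 → Fin (m + 1)) → Finset (Fin 3 → Fin (m + 1)) :=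
    fun v => (N v).filter fun w => ∀ u ∈ S, u ≠ v → w ∉ N u with hPN
  set U : Finset (Fin 3 → Fin (m + 1)) := univ.filter fun p => ∀ v ∈ S, p ∉ N v with hU
  set Dm : Finset (Fin 3 → Fin (m + 1)) := univ.filter fun p => ¬ ∀ v ∈ S, p ∉ N v with hDm
  set A : (Fin 3 → Fin (m + 1)) → Finset (Fin 3 → Fin (m + 1)) :=
    fun v => U.filter fun u => PN v ⊆ N u with hA
  -- every undominated vertex annihilates an element of `S`
  have hUA : U ⊆ S.biUnion A := by
    intro u hu
    have hu2 := (mem_filter.1 hu).2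
    have huS : u ∉ S := fun h => hu2 u h (self_mem u)
    have h1 : ¬ Irr (insert u S) := by
      intro h
      have := hM _ (subset_insert u S) h
      exact huS (this ▸ mem_insert_self u S)
    unfold Irr at h1
    push_neg at h1
    obtain ⟨v, hv, hv2⟩ := h1
    have hvu : v ≠ u := by
      rintro rfl
      obtain ⟨x, hx1, hx2, hx3⟩ := hv2 v (self_mem v)
      rcases mem_insert.1 hx1 with h | h
      · exact hx2 h
      · exact hu2 x h hx3
    have hvS : v ∈ S := (mem_insert.1 hv).resolve_left hvu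
    refine mem_biUnion.2 ⟨v, hvS, mem_filter.2 ⟨hu, ?_⟩⟩
    intro w hw
    obtain ⟨hw1, hw2⟩ := mem_filter.1 hw
    obtain ⟨x, hx1, hx2, hx3⟩ := hv2 w hw1
    rcases mem_insert.1 hx1 with h | h
    · rw [← h]; exact hx3
    · exact absurd hx3 (hw2 x h hx2)
  -- double counting of the dominated vertices
  have hDc : 2 * Dm.card ≤ ∑ v ∈ S, ((N v).card + (PN v).card) := by
    have e1 := dcount S N
    have e2 := dcount S PN
    rw [sum_add_distrib, e1, e2, ← sum_add_distrib]
    calc 2 * Dm.card = ∑ p ∈ Dm, 2 := by rw [sum_const, smul_eq_mul, Nat.mul_comm]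
      _ ≤ ∑ p ∈ Dm, ((S.filter fun v => p ∈ N v).card + (S.filter fun v => p ∈ PN v).card) := by
          refine sum_le_sum fun p hp => ?_
          have hp2 := (mem_filter.1 hp).2
          push_neg at hp2
          obtain ⟨v, hv, hpv⟩ := hp2
          by_cases hex : ∃ u ∈ S, u ≠ v ∧ p ∈ N u
          · obtain ⟨u, hu, huv, hpu⟩ := hex
            have : ({v, u} : Finset (Fin 3 → Fin (m + 1))) ⊆ S.filter fun v => p ∈ N v := by
              intro x hx
              rw [mem_insert, mem_singleton] at hx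
              rcases hx with rfl | rfl
              · exact mem_filter.2 ⟨hv, hpv⟩
              · exact mem_filter.2 ⟨hu, hpu⟩
            have h3 := card_le_card this
            rw [card_pair huv.symm] at h3
            omega
          · push_neg at hex
            have h3 : 0 < (S.filter fun v => p ∈ N v).card := card_pos.2 ⟨v, mem_filter.2 ⟨hv, hpv⟩⟩
            have h4 : 0 < (S.filter fun v => p ∈ PN v).card :=
              card_pos.2 ⟨v, mem_filter.2 ⟨hv, mem_filter.2 ⟨hpv, hex⟩⟩⟩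
            omega
      _ ≤ ∑ p : Fin 3 → Fin (m + 1), ((S.filter fun v => p ∈ N v).card + (S.filter fun v => p ∈ PN v).card) :=
          sum_le_sum_of_subset (subset_univ _)
  have hUc : U.card ≤ ∑ v ∈ S, (A v).card := (card_le_card hUA).trans card_biUnion_le
  have htot : U.card + Dm.card = (m + 1) ^ 3 := by
    rw [hU, hDm, card_filter_add_card_filter_not, card_univ, Fintype.card_fun, Fintype.card_fin, Fintype.card_fin]
  show 2 * (m + 1) ^ 3 ≤ ∑ v ∈ S, ((N v).card + (PN v).card + 2 * (A v).card)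
  rw [sum_add_distrib, ← mul_sum]
  calc 2 * (m + 1) ^ 3 = 2 * Dm.card + 2 * U.card := by rw [← htot]; ring
    _ ≤ _ := by omega

theorem count2 (S : Finset (Fin 3 → Fin (m + 1))) (hI : Irr S) (hM : ∀ T, S ⊆ T → Irr T → T = S) :
    3 * (m + 1) ^ 2 < 10 * S.card := by
  classical
  set PN : (Fin 3 → Fin (m + 1)) → Finset (Fin 3 → Fin (m + 1)) :=
    fun v => (N v).filter fun w => ∀ u ∈ S, u ≠ v → w ∉ N u with hPN
  set U : Finset (Fin 3 → Fin (m + 1)) := univ.filter fun p => ∀ v ∈ S, p ∉ N v with hU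
  set A : (Fin 3 → Fin (m + 1)) → Finset (Fin 3 → Fin (m + 1)) :=
    fun v => U.filter fun u => PN v ⊆ N u with hA
  obtain ⟨hmain, -⟩ : 2 * (m + 1) ^ 3 ≤ ∑ v ∈ S, ((N v).card + (PN v).card + 2 * (A v).card) ∧ True :=
    ⟨count_sum S hI hM, trivial⟩
  set T : Finset (Fin 3 → Fin (m + 1)) := S.filter fun v => (A v).Nonempty with hT
  -- the direction of a private neighbour
  have hdir : ∀ v, ∃ i : Fin 3, v ∈ T → ∃ t, t ≠ v i ∧ Function.update v i t ∈ PN v := by
    intro v
    by_cases hv : v ∈ T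
    · obtain ⟨hvS, u, hu⟩ := mem_filter.1 hv
      obtain ⟨huU, hsub⟩ := mem_filter.1 hu
      have huv : u ∉ N v := (mem_filter.1 huU).2 v hvS
      obtain ⟨w, hwN, hwp⟩ := hI v hvS
      have hw : w ∈ PN v := mem_filter.2 ⟨hwN, hwp⟩
      rcases mem_N_iff v w hwN with h | ⟨i, t, ht, h⟩
      · exfalso
        subst h
        exact huv ((mem_N_comm u w).1 (hsub hw))
      · exact ⟨i, fun _ => ⟨t, ht, h ▸ hw⟩⟩
    · exact ⟨0, fun h => absurd h hv⟩
  choose dir hdir using hdir
  have hTS : ∀ v ∈ T, v ∈ S := fun v hv => (mem_filter.1 hv).1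
  have hsum : ∀ i : Fin 3, (m + 1) * ∑ v ∈ T.filter (fun v => dir v = i), (A v).card +
      2 * (T.filter fun v => dir v = i).card ^ 2 ≤ 2 * (m + 1) ^ 2 * (T.filter fun v => dir v = i).card := by
    intro i
    apply sum_dir S _ A i
    · intro x hx
      exact hTS x (mem_filter.1 hx).1
    · intro x hx y hy h
      by_contra hxy
      obtain ⟨hx1, hx2⟩ := mem_filter.1 hx
      obtain ⟨hy1, -⟩ := mem_filter.1 hy
      obtain ⟨t, -, ht⟩ := hdir x hx1
      rw [hx2] at ht
      apply (mem_filter.1 ht).2 y (hTS y hy1) (fun h => hxy h.symm)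
      have : Function.update x i t = Function.update y i t := by
        funext l
        by_cases hl : l = i
        · rw [hl, Function.update_self, Function.update_self]
        · rw [Function.update_of_ne hl, Function.update_of_ne hl, h l hl]
      rw [this]
      exact upd_mem y i t
    · intro v hv
      obtain ⟨hv1, hv2⟩ := mem_filter.1 hv
      obtain ⟨t, -, ht⟩ := hdir v hv1
      rw [hv2] at ht
      refine ⟨t, fun u hu => ?_⟩
      obtain ⟨huU, hsub⟩ := mem_filter.1 hu
      exact ⟨(mem_N_comm u _).1 (hsub ht), (mem_filter.1 huU).2⟩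
  -- bounds of the other terms
  have hloc : ∀ v ∈ S, (N v).card + (PN v).card ≤ if v ∈ T then 3 * (m + 1) else 6 * (m + 1) := by
    intro v hv
    have hN := card_N v
    have h1 : (PN v).card ≤ (N v).card := card_le_card (filter_subset _ _)
    split_ifs with hvT
    · obtain ⟨-, u, hu⟩ := mem_filter.1 hvT
      obtain ⟨huU, hsub⟩ := mem_filter.1 hu
      have huv : u ∉ N v := (mem_filter.1 huU).2 v hv
      have h1 : (PN v).card ≤ 2 := by
        refine (card_le_card ?_).trans (card_inter_N u v huv)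
        intro w hw
        exact mem_inter.2 ⟨hsub hw, (mem_filter.1 hw).1⟩
      omega
    · omega
  have hT1 : ∑ v ∈ S, (if v ∈ T then 3 * (m + 1) else 6 * (m + 1)) + 3 * (m + 1) * T.card = 6 * (m + 1) * S.card := by
    have h1 : ∑ v ∈ S, (if v ∈ T then 3 * (m + 1) else 0) = 3 * (m + 1) * T.card := by
      rw [← sum_filter, sum_const, smul_eq_mul, Nat.mul_comm]
      congr 2
      ext v
      rw [mem_filter]
      exact ⟨fun h => h.2, fun h => ⟨hTS v h, h⟩⟩
    rw [← h1, ← sum_add_distrib]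
    have h2 : ∀ v ∈ S, ((if v ∈ T then 3 * (m + 1) else 6 * (m + 1)) + if v ∈ T then 3 * (m + 1) else 0) = 6 * (m + 1) := by
      intro v _
      split_ifs <;> omega
    rw [sum_congr rfl h2, sum_const, smul_eq_mul, Nat.mul_comm]
  have hAT : ∑ v ∈ S, (A v).card = ∑ v ∈ T, (A v).card := by
    symm
    apply sum_subset (filter_subset _ _)
    intro v hv hvT
    rw [card_eq_zero, ← not_nonempty_iff_eq_empty]
    exact fun h => hvT (mem_filter.2 ⟨hv, h⟩)
  have hAd : ∑ v ∈ T, (A v).card = ∑ i : Fin 3, ∑ v ∈ T.filter (fun v => dir v = i), (A v).card :=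
    (sum_fiberwise T dir fun v => (A v).card).symm
  have hTd : T.card = ∑ i : Fin 3, (T.filter fun v => dir v = i).card :=
    card_eq_sum_card_fiberwise (f := dir) (t := univ) (fun v _ => by simp)
  have hm1 : 2 * (m + 1) ^ 3 + 3 * (m + 1) * T.card ≤ 6 * (m + 1) * S.card + 2 * ∑ v ∈ T, (A v).card := by
    rw [sum_add_distrib, ← mul_sum, hAT] at hmain
    have := sum_le_sum hloc
    omega
  have hst : T.card ≤ S.card := card_le_card (filter_subset _ _)
  have h0 := hsum 0
  have h1 := hsum 1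
  have h2 := hsum 2
  rw [Fin.sum_univ_three] at hAd hTd
  generalize (T.filter fun v => dir v = 0).card = t0 at *
  generalize (T.filter fun v => dir v = 1).card = t1 at *
  generalize (T.filter fun v => dir v = 2).card = t2 at *
  generalize ∑ v ∈ T.filter (fun v => dir v = 0), (A v).card = a0 at *
  generalize ∑ v ∈ T.filter (fun v => dir v = 1), (A v).card = a1 at *
  generalize ∑ v ∈ T.filter (fun v => dir v = 2), (A v).card = a2 at *
  generalize ∑ v ∈ T, (A v).card = aa at *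
  generalize T.card = t at *
  generalize S.card = s at *
  by_contra hc
  push Not at hc
  -- real arithmetic
  have g0 : ((m : ℝ) + 1) * a0 + 2 * (t0 : ℝ) ^ 2 ≤ 2 * ((m : ℝ) + 1) ^ 2 * t0 := by exact_mod_cast h0
  have g1 : ((m : ℝ) + 1) * a1 + 2 * (t1 : ℝ) ^ 2 ≤ 2 * ((m : ℝ) + 1) ^ 2 * t1 := by exact_mod_cast h1
  have g2 : ((m : ℝ) + 1) * a2 + 2 * (t2 : ℝ) ^ 2 ≤ 2 * ((m : ℝ) + 1) ^ 2 * t2 := by exact_mod_cast h2
  have gA : (aa : ℝ) = a0 + a1 + a2 := by exact_mod_cast hAd
  have gT : (t : ℝ) = t0 + t1 + t2 := by exact_mod_cast hTd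
  have gm : 2 * ((m : ℝ) + 1) ^ 3 + 3 * ((m : ℝ) + 1) * t ≤ 6 * ((m : ℝ) + 1) * s + 2 * aa := by
    exact_mod_cast hm1
  have gs : (t : ℝ) ≤ s := by exact_mod_cast hst
  have gc : 10 * (s : ℝ) ≤ 3 * ((m : ℝ) + 1) ^ 2 := by exact_mod_cast hc
  have gt0 : (0 : ℝ) ≤ t := Nat.cast_nonneg _
  set x : ℝ := (m : ℝ) + 1 with hx
  have hx0 : 0 < x := by positivity
  have e1 : (t : ℝ) ^ 2 ≤ 3 * ((t0 : ℝ) ^ 2 + (t1 : ℝ) ^ 2 + (t2 : ℝ) ^ 2) := by
    rw [gT]
    nlinarith [sq_nonneg ((t0 : ℝ) - t1), sq_nonneg ((t1 : ℝ) - t2), sq_nonneg ((t0 : ℝ) - t2)]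
  have e2 : x * aa + 2 / 3 * (t : ℝ) ^ 2 ≤ 2 * x ^ 2 * t := by
    rw [gA]
    have : 2 * x ^ 2 * (t : ℝ) = 2 * x ^ 2 * t0 + 2 * x ^ 2 * t1 + 2 * x ^ 2 * t2 := by rw [gT]; ring
    rw [this]
    linarith
  have e3 : x * (2 * x ^ 3 + 3 * x * t) ≤ x * (6 * x * s + 2 * aa) := mul_le_mul_of_nonneg_left gm hx0.le
  have e4 : 2 * x ^ 4 + 4 / 3 * (t : ℝ) ^ 2 ≤ 6 * x ^ 2 * s + x ^ 2 * t := by nlinarith
  have e5 : 6 * x ^ 2 * (s : ℝ) ≤ 6 * x ^ 2 * (3 / 10 * x ^ 2) :=
    mul_le_mul_of_nonneg_left (by linarith) (by positivity)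
  have e6 : 0 ≤ (3 / 10 * x ^ 2 - (t : ℝ)) * (9 / 20 * x ^ 2 - t) :=
    mul_nonneg (by linarith) (by nlinarith)
  have e7 : 0 < x ^ 4 := by positivity
  nlinarith

end Pool.Agent.V5helper7.RK
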